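import Pool.Agent.H17.VS.TargetsD
import Pool.Agent.H64.SC.Api
import Pool.Agent.H27.LV.Curve

/-!
# MP_70ba79_ag: row DEV of the board `vs_modules`
-/

set_option autoImplicit false

namespace Pool.Agent.H61.VS

open Matrix SC Pool.Agent.H27.LV

private lemma ge_divV {k K : Type} [Field k] [Field K] [Algebra k K] {v : DV k K} {t t' : ℤ}
    {z g : K} (hg : g ≠ 0) (h : ge v t z) (ht : t' + v.ord g ≤ t) : ge v t' (z / g) := by
  rcases h with h | h
  · left; rw [h, zero_div]
  · by_cases hz : z = 0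
    · left; rw [hz, zero_div]
    · right
      have h1 : v.ord z = v.ord (z / g) + v.ord g := by
        rw [← v.ord_mul' (div_ne_zero hz hg) hg, div_mul_cancel₀ z hg]
      linarith

theorem pf_DEV (hDE : Pool.Agent.H17.CI.T_DET) (hRA : Pool.Agent.H17.VS.T_RAT) :
    Pool.Agent.H17.VS.T_DEV := by
  classical
  intro k K _ _ _ v ρ κ ι _ _ _ _ _ Z A M N J J' g e0 p ω u γ hZA hJ hJ' hgA hγ hgZ hM1 hM2 hZ hA hN
  have h1 := hDE k K v ρ κ ι Z A M J J' g e0 p ω u γ hZA hJ hJ' hgA hγ hgZ hM1 hM2 hZ hA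
  set N' : Matrix ρ Z K := Matrix.of fun r z => if J z = r then (1 : K) else 0 with hN'
  set Φ : Matrix Z ρ K := Matrix.of fun i r => g i r with hΦ
  have h0 : Φ * M = 0 := by
    ext i c
    rw [Matrix.mul_apply]
    exact hZ i.1 i.2 c
  have h2 := hRA K ρ (κ ⊕ Unit) Z M N N' Φ e0 h0
  have h3 : Φ * N' = Matrix.of fun i i' : Z => g i (J i') := by
    ext i i'
    rw [Matrix.mul_apply]
    simp [hΦ, hN']
  have h4 : Φ * N = Matrix.of fun i i' : Z => ∑ r, g i r * N r i' := by
    ext i i'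
    rw [Matrix.mul_apply]
    rfl
  have h5 : (Matrix.of fun (r : ρ) (c : (κ ⊕ Unit) ⊕ Z) => Sum.elim (fun c => M r c)
      (fun z => if J z = r then (1 : K) else 0) c) = Matrix.fromCols M N' := by
    ext r c
    rcases c with c | c <;> rfl
  rw [h5] at h1
  rw [h3, h4] at h2
  have h6 : ((Matrix.fromCols M N).submatrix e0 id).det =
      ((Matrix.fromCols M N').submatrix e0 id).det *
        (Matrix.of fun i i' : Z => ∑ r, g i r * N r i').det /
        (Matrix.of fun i i' : Z => g i (J i')).det := by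
    rw [eq_div_iff hgZ, h2]
  rw [h6]
  refine ge_divV hgZ (h1.mul (ge_of_ord v)) ?_
  linarith

end Pool.Agent.H61.VS
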