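import Pool.Agent.H17.VS.TargetsD

/-!
# MP_70ba79_ag: row RAT of the board `vs_modules` (two completions of a matrix)
-/

set_option autoImplicit false

namespace Pool.Agent.H61.VS

open Matrix

private lemma rat_key {K : Type} [Field K] {ρ κ ζ : Type} [Fintype ρ] [DecidableEq ρ]
    [Fintype κ] [DecidableEq κ] [Fintype ζ] [DecidableEq ζ] (M : Matrix ρ κ K)
    (N N' : Matrix ρ ζ K) (Φ : Matrix ζ ρ K) (e0 : κ ⊕ ζ ≃ ρ) (h0 : Φ * M = 0)
    (hd : ((Matrix.fromCols M N').submatrix e0 id).det ≠ 0) :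
    ((Matrix.fromCols M N).submatrix e0 id).det * (Φ * N').det =
      ((Matrix.fromCols M N').submatrix e0 id).det * (Φ * N).det := by
  classical
  have hu : IsUnit ((Matrix.fromCols M N').submatrix e0 id).det := isUnit_iff_ne_zero.2 hd
  set A := (Matrix.fromCols M N).submatrix e0 id with hA
  set A' := (Matrix.fromCols M N').submatrix e0 id with hA'
  obtain ⟨X, hX⟩ : ∃ X : Matrix (κ ⊕ ζ) (κ ⊕ ζ) K, X = A'⁻¹ * A := ⟨_, rfl⟩
  have hAX : A' * X = A := by rw [hX, Matrix.mul_nonsing_inv_cancel_left _ _ hu]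
  have hcol : ∀ r (c : κ), X r (Sum.inl c) = (1 : Matrix (κ ⊕ ζ) (κ ⊕ ζ) K) r (Sum.inl c) := by
    intro r c
    have h1 : (1 : Matrix (κ ⊕ ζ) (κ ⊕ ζ) K) = A'⁻¹ * A' := (Matrix.nonsing_inv_mul _ hu).symm
    rw [h1, hX]
    simp only [Matrix.mul_apply]
    refine Finset.sum_congr rfl fun s _ => ?_
    rfl
  have hXb : X = Matrix.fromBlocks 1 X.toBlocks₁₂ 0 X.toBlocks₂₂ := by
    ext r c
    rcases r with r | r <;> rcases c with c | c
    · rw [hcol]
      simp [Matrix.one_apply]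
    · rfl
    · rw [hcol]
      simp [Matrix.one_apply]
    · rfl
  have hdet : A.det = A'.det * X.toBlocks₂₂.det := by
    rw [← hAX, Matrix.det_mul]
    congr 1
    conv_lhs => rw [hXb]
    rw [Matrix.det_fromBlocks_zero₂₁, Matrix.det_one, one_mul]
  have hN : N = M * X.toBlocks₁₂ + N' * X.toBlocks₂₂ := by
    ext r z
    have h1 := congrFun (congrFun hAX (e0.symm r)) (Sum.inr z)
    rw [Matrix.mul_apply, Fintype.sum_sum_type] at h1
    simp only [hA, hA', Matrix.submatrix_apply, Equiv.apply_symm_apply, id,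
      Matrix.fromCols_apply_inl, Matrix.fromCols_apply_inr] at h1
    rw [← h1]
    simp only [Matrix.add_apply, Matrix.mul_apply]
    rfl
  have hPN : Φ * N = (Φ * N') * X.toBlocks₂₂ := by
    conv_lhs => rw [hN]
    rw [Matrix.mul_add, ← Matrix.mul_assoc, h0, Matrix.zero_mul, zero_add, Matrix.mul_assoc]
  rw [hdet, hPN, Matrix.det_mul]
  ring

theorem pf_RAT : Pool.Agent.H17.VS.T_RAT := by
  intro K _ ρ κ ζ _ _ _ _ _ _ M N N' Φ e0 h0
  by_cases h1 : ((Matrix.fromCols M N').submatrix e0 id).det = 0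
  · by_cases h2 : ((Matrix.fromCols M N).submatrix e0 id).det = 0
    · rw [h1, h2]
      simp
    · exact (rat_key M N' N Φ e0 h0 h2).symm
  · exact rat_key M N N' Φ e0 h0 h1

end Pool.Agent.H61.VS
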