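import Pool.Agent.H17.VS.TargetsA
import Pool.Agent.H27.LV.Curve

/-!
# MP_70ba79_ag: row RES of the board `vs_modules`: residues of algebraic elements
-/

set_option autoImplicit false

namespace Pool.Agent.H61.VS

open MvPolynomial SC Pool.Agent.H27.LV Pool.Agent.H1.CI

private lemma card_le {R K : Type} [Field R] [Field K] [Algebra R K] {T : Type} [Fintype T]
    {n : ℕ} (x : Fin (n + 1) → K) (B : Finset (Fin n)) (g : T → K)
    (hg : AlgebraicIndependent R g)
    (h : ∀ i, g i ∈ (AlgebraicIndependent.matroid R K).closure
      (Set.range fun b : B => x b.1.succ)) : Fintype.card T ≤ B.card := by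
  classical
  have h1 : (AlgebraicIndependent.matroid R K).Indep (Set.range g) := by
    rw [AlgebraicIndependent.matroid_indep_iff]
    exact hg.coe_range
  have h2 : Set.range g ⊆ (AlgebraicIndependent.matroid R K).closure
      (Set.range fun b : B => x b.1.succ) := by
    rintro _ ⟨i, rfl⟩
    exact h i
  have h3 := h1.encard_le_eRk_of_subset h2
  rw [Matroid.eRk_closure_eq] at h3
  have h4 := (AlgebraicIndependent.matroid R K).eRk_le_encard
    (Set.range fun b : B => x b.1.succ)
  have h5 : (Set.range fun b : B => x b.1.succ).encard ≤ B.card := by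
    have : (Set.range fun b : B => x b.1.succ) =
        ((Finset.univ.image fun b : B => x b.1.succ : Finset K) : Set K) := by
      simp
    rw [this, Set.encard_coe_eq_coe_finsetCard]
    have h6 := Finset.card_image_le (s := (Finset.univ : Finset B)) (f := fun b : B => x b.1.succ)
    rw [Finset.card_univ, Fintype.card_coe] at h6
    exact_mod_cast h6
  have h6 : (Fintype.card T : ℕ∞) ≤ (Set.range g).encard := by
    have := hg.injective.encard_range
    rwa [ENat.card_eq_coe_fintype_card] at this
  exact_mod_cast ((h6.trans h3).trans h4).trans h5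

private lemma alg_iff {R K : Type} [Field R] [Field K] [Algebra R K] (S : Set K) (f : K) :
    IsAlgebraic (IntermediateField.adjoin R S) f ↔
      f ∈ (AlgebraicIndependent.matroid R K).closure S := by
  open scoped IntermediateField.algebraAdjoinAdjoin in
  rw [AlgebraicIndependent.matroid_closure_eq]
  exact (IsFractionRing.isAlgebraic_iff (Algebra.adjoin R S) (IntermediateField.adjoin R S)
    K).symm

section

variable {R k K : Type} [Field R] [Field k] [Field K] [Algebra R k] [Algebra k K]
  [Algebra R K] [IsScalarTower R k K] {T : Type}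

private lemma rd_aeval (v : DV k K) (f : T → K) (a : T → k) (h : ∀ i, Rd v (f i) (a i))
    (P : MvPolynomial T R) : Rd v (aeval f P) (aeval a P) := by
  induction P using MvPolynomial.induction_on with
  | C c =>
    rw [aeval_C, aeval_C, IsScalarTower.algebraMap_apply R k K c]
    exact Rd.const v _
  | add p q hp hq =>
    rw [map_add, map_add]
    exact hp.add hq
  | mul_X p i hp =>
    rw [map_mul, map_mul, aeval_X, aeval_X]
    exact hp.mul (h i)

private lemma indep_of_rd (v : DV k K) (f : T → K) (a : T → k) (h : ∀ i, Rd v (f i) (a i))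
    (ha : AlgebraicIndependent R a) : AlgebraicIndependent R f := by
  rw [algebraicIndependent_iff]
  intro P hP
  have h1 := rd_aeval (R := R) v f a h P
  rw [hP] at h1
  have h2 : ge v 1 (algebraMap k K (aeval a P)) := by
    have := h1.2.neg
    simpa using this
  exact (algebraicIndependent_iff.1 ha) P (const_eq_zero v one_pos h2)

private lemma indep_option (v : DV k K) (f : T → K) (a : T → k) (h : ∀ i, Rd v (f i) (a i))
    (ha : AlgebraicIndependent R a) (z : K) (hz : z ≠ 0) (hz1 : 0 < v.ord z) :
    AlgebraicIndependent R (fun o : Option T => o.elim z f) := by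
  have hf := indep_of_rd v f a h ha
  rw [hf.option_iff_transcendental]
  rintro ⟨p, hp, hpz⟩
  have hS : ∀ s : Algebra.adjoin R (Set.range f), ge v 0 (s : K) ∧
      (s ≠ 0 → v.ord (s : K) = 0) := by
    intro s
    obtain ⟨P, hP⟩ : ∃ P : MvPolynomial T R, aeval f P = (s : K) := by
      have h0 : (s : K) ∈ (aeval f : MvPolynomial T R →ₐ[R] K).range := by
        rw [← Algebra.adjoin_range_eq_range_aeval]
        exact s.2
      exact h0
    have h1 := rd_aeval (R := R) v f a h P
    rw [hP] at h1
    refine ⟨h1.1, fun hs => ?_⟩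
    have hP0 : P ≠ 0 := by
      intro h0
      rw [h0, map_zero] at hP
      exact hs (Subtype.ext hP.symm)
    have h2 : aeval a P ≠ 0 := fun h0 => hP0 ((algebraicIndependent_iff.1 ha) P h0)
    exact (h1.unit h2).2
  have hct : p.coeff p.natTrailingDegree ≠ 0 := by
    have := Polynomial.trailingCoeff_nonzero_iff_nonzero.2 hp
    exact this
  rw [Polynomial.aeval_eq_sum_range] at hpz
  have hmem : p.natTrailingDegree ∈ Finset.range (p.natDegree + 1) := by
    rw [Finset.mem_range]
    have := Polynomial.natTrailingDegree_le_natDegree p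
    omega
  rw [← Finset.add_sum_erase _ _ hmem] at hpz
  have hord : ∀ i : ℕ, v.ord (z ^ i) = i * v.ord z := fun i => v.ord_pow _ _
  have h1 : ge v ((p.natTrailingDegree + 1) * v.ord z)
      (∑ i ∈ (Finset.range (p.natDegree + 1)).erase p.natTrailingDegree, p.coeff i • z ^ i) := by
    refine ge_sum v _ _ _ fun i hi => ?_
    rw [Finset.mem_erase] at hi
    rcases lt_or_gt_of_ne hi.1 with h2 | h2
    · rw [Polynomial.coeff_eq_zero_of_lt_natTrailingDegree h2, zero_smul]
      exact ge_zero v _
    · have h3 := (hS (p.coeff i)).1.mul (ge_of_ord v (x := z ^ i))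
      rw [hord, zero_add] at h3
      refine h3.mono ?_
      have : ((p.natTrailingDegree : ℤ) + 1) ≤ i := by exact_mod_cast h2
      nlinarith
  have hc0 : ((p.coeff p.natTrailingDegree : Algebra.adjoin R (Set.range f)) : K) ≠ 0 := by
    intro h0
    exact hct (Subtype.ext h0)
  have hne : p.coeff p.natTrailingDegree • z ^ p.natTrailingDegree ≠ 0 :=
    mul_ne_zero hc0 (pow_ne_zero _ hz)
  have h2 : v.ord (p.coeff p.natTrailingDegree • z ^ p.natTrailingDegree) =
      p.natTrailingDegree * v.ord z := by
    change v.ord ((p.coeff p.natTrailingDegree : K) * z ^ p.natTrailingDegree) = _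
    rw [v.ord_mul' hc0 (pow_ne_zero _ hz), hord, (hS _).2 hct, zero_add]
  have h3 : ge v ((p.natTrailingDegree + 1) * v.ord z)
      (p.coeff p.natTrailingDegree • z ^ p.natTrailingDegree) := by
    rw [eq_neg_of_add_eq_zero_left hpz]
    exact h1.neg
  rcases h3 with h3 | h3
  · exact hne h3
  · rw [h2] at h3
    nlinarith

end

theorem pf_RES : Pool.Agent.H17.VS.T_RES := by
  classical
  intro R k K _ _ _ _ _ _ _ v n x B hGen N hN
  set E : Set k := {a | ∃ f : K, IsAlgebraic (IntermediateField.adjoin R (Set.range x)) f ∧
    Rd v f a} with hE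
  have hcl : ∀ f : K, IsAlgebraic (IntermediateField.adjoin R (Set.range x)) f →
      f ∈ (AlgebraicIndependent.matroid R K).closure (Set.range fun b : B => x b.1.succ) := by
    intro f hf
    rw [alg_iff] at hf
    have h1 : Set.range x ⊆ (AlgebraicIndependent.matroid R K).closure
        (Set.range fun b : B => x b.1.succ) := by
      rintro _ ⟨a, rfl⟩
      rw [← alg_iff]
      exact hGen a
    exact Matroid.closure_subset_closure_of_subset_closure h1 hf
  have hmain : ∀ (T : Type) [Fintype T] (a : T → k), (∀ i, a i ∈ E) →
      AlgebraicIndependent R a → Fintype.card T ≤ N := by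
    intro T _ a haE ha
    choose f hf hfa using haE
    rcases hN with hN | ⟨hN, i, hi, hv⟩
    · exact (card_le x B f (indep_of_rd v f a hfa ha) fun i => hcl _ (hf i)).trans hN
    · obtain ⟨z, hz, hz1, hzc⟩ : ∃ z : K, z ≠ 0 ∧ 0 < v.ord z ∧
          IsAlgebraic (IntermediateField.adjoin R (Set.range x)) z := by
        have hx : IsAlgebraic (IntermediateField.adjoin R (Set.range x)) (x i) := by
          rw [alg_iff]
          exact Matroid.subset_closure _ _ (Set.subset_univ _) ⟨i, rfl⟩
        rcases lt_or_gt_of_ne hv with h | h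
        · refine ⟨(x i)⁻¹, inv_ne_zero hi, ?_, hx.inv⟩
          rw [v.ord_inv]
          omega
        · exact ⟨x i, hi, h, hx⟩
      have h1 := card_le x B _ (indep_option v f a hfa ha z hz hz1) (by
        rintro (_ | j)
        · exact hcl _ hzc
        · exact hcl _ (hf j))
      rw [Fintype.card_option] at h1
      omega
  obtain ⟨I, hI⟩ := (AlgebraicIndependent.matroid R k).exists_isBasis E (Set.subset_univ _)
  rw [AlgebraicIndependent.matroid_isBasis_iff] at hI
  obtain ⟨hI1, hI2, hI3⟩ := hI
  have hcard : I.encard ≤ N := by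
    by_contra hcon
    have h1 : ((N + 1 : ℕ) : ℕ∞) ≤ I.encard := by
      push Not at hcon
      have := Order.add_one_le_of_lt hcon
      exact_mod_cast this
    obtain ⟨t, ht, htc⟩ := Set.exists_subset_encard_eq h1
    have hfin : t.Finite := Set.finite_of_encard_eq_coe htc
    have := hfin.fintype
    have h2 : AlgebraicIndependent R (fun i : t => (i : k)) := hI1.mono ht
    have h3 := hmain t (fun i : t => (i : k)) (fun i => hI2 (ht i.2)) h2
    have h4 : (Fintype.card t : ℕ∞) = t.encard := by
      rw [Set.encard_eq_coe_toFinset_card, Set.toFinset_card]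
    rw [htc] at h4
    have h5 : Fintype.card t = N + 1 := by exact_mod_cast h4
    omega
  have hfin : I.Finite := Set.finite_of_encard_le_coe hcard
  have := hfin.fintype
  have hcard' : Fintype.card I ≤ Fintype.card (Fin N) := by
    rw [Fintype.card_fin]
    have h4 : (Fintype.card I : ℕ∞) = I.encard := by
      rw [Set.encard_eq_coe_toFinset_card, Set.toFinset_card]
    rw [← h4] at hcard
    exact_mod_cast hcard
  obtain ⟨emb⟩ := Function.Embedding.nonempty_of_card_le hcard'
  refine ⟨Function.extend emb (fun i : I => (i : k)) 0, fun f a hf ha => ?_⟩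
  rw [alg_iff]
  have h1 : I ⊆ Set.range (Function.extend emb (fun i : I => (i : k)) 0) := by
    intro i hi
    exact ⟨emb ⟨i, hi⟩, emb.injective.extend_apply _ _ _⟩
  have h2 : a ∈ (AlgebraicIndependent.matroid R k).closure I := by
    rw [AlgebraicIndependent.matroid_closure_eq]
    exact hI3 a ⟨f, hf, ha⟩
  exact Matroid.closure_subset_closure _ h1 h2

end Pool.Agent.H61.VS
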